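import Pool.Agent.H37.SEP.RNM

/-!
Project SEP, modules INV and EXR: types for rules are invariant under isomorphisms; correct
extensions can be made disjoint from a given countable set.
-/

set_option linter.unusedVariables false
set_option synthInstance.maxSize 100000

namespace SW.SEP

open SW Rnm

namespace InvX

section
variable {M : Type} [SetStr M] [ZF M]

theorem lvc {J B r q x i t : M} (hA : AtFacts M) (hJ : Sy J) (h : E (cod B r q x i t) J) :
    LVC (cod B r q x i t) := by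
  obtain ⟨h1, h2, _, _, h5, h6, h7, h8, h9, h10, h11⟩ := hA.sycd hJ h
  exact ⟨B, r, q, x, i, t, rfl, h1, h2, h5, h6, h7, h8, h9, h10, h11⟩

theorem nm_mono (hP : PsFacts M) {J K X τ : M} (h : Sub J K) (hn : Nm J X τ) : Nm K X τ := by
  refine ⟨hn.1, fun t ht => ?_⟩
  obtain ⟨q, a, hq, ha, rfl⟩ := hn.2 t ht
  exact ⟨q, a, hP.mono h hq, ha, rfl⟩

theorem hx_emp (g : M) : hx g emp = emp := by
  unfold hx
  exact the_eq (p := fun y => (emp = emp ∧ y = emp) ∨ (¬ emp = emp ∧ y = app g emp))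
    (Or.inl ⟨rfl, rfl⟩) fun z hz => by
      rcases hz with h | h
      · exact h.2
      · exact absurd rfl h.1

theorem hx_ne {g a : M} (h : a ≠ emp) : hx g a = app g a := by
  unfold hx
  exact the_eq (p := fun y => (a = emp ∧ y = emp) ∨ (¬ a = emp ∧ y = app g a))
    (Or.inr ⟨h, rfl⟩) fun z hz => by
      rcases hz with h' | h'
      · exact absurd h'.1 h
      · exact h'.2

/-- functions which are the identity on `B` do not move conditions over `B` -/
theorem act_id {g B p : M} (hg : ∀ e, E e B → app g e = e) (h0 : ¬ E emp B) (hp : E p (PS B)) :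
    act g p = p := by
  have hat : ∀ a, E a p → opair (hx g (p1 a)) (p2 a) = a := by
    intro a ha
    have hne : ∀ e, E e B → e ≠ emp := fun e he h => h0 (h ▸ he)
    rcases (mem_PS.1 hp).1.2 a ha with ⟨s, τ, b, _, _, _, rfl⟩ | ⟨e, v, he, _, rfl⟩ |
      ⟨e, z, j, he, _, _, rfl⟩
    · simp only [gR, p1_opair, p2_opair, hx_emp]
    · simp only [lV, p1_opair, p2_opair, hx_ne (hne e he), hg e he]
    · simp only [lF, p1_opair, p2_opair, hx_ne (hne e he), hg e he]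
  refine ext fun z => ?_
  rw [mem_act]
  constructor
  · rintro ⟨a, ha, rfl⟩
    rw [hat a ha]
    exact ha
  · intro hz
    exact ⟨z, hz, (hat z hz).symm⟩

theorem actn_id {g B X τ : M} (hg : ∀ e, E e B → app g e = e) (h0 : ¬ E emp B)
    (hn : Nm B X τ) : actn g τ = τ := by
  have hat : ∀ a, E a τ → opair (act g (p1 a)) (p2 a) = a := by
    intro a ha
    obtain ⟨q, b, hq, _, rfl⟩ := hn.2 a ha
    rw [p1_opair, p2_opair, act_id hg h0 hq]
  refine ext fun z => ?_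
  rw [mem_actn]
  constructor
  · rintro ⟨a, ha, rfl⟩
    rw [hat a ha]
    exact ha
  · intro hz
    exact ⟨z, hz, (hat z hz).symm⟩

theorem ig_id {g B D : M} (hg : ∀ e, E e B → app g e = e) (hD : Sub D B) : ig g D = D := by
  refine ext fun z => ?_
  rw [mem_ig]
  constructor
  · rintro ⟨a, ha, rfl⟩
    rw [hg a (hD a ha)]
    exact ha
  · intro hz
    exact ⟨z, hz, (hg z (hD z hz)).symm⟩

theorem iso_id (hA : AtFacts M) {B g : M} (hB : Sy B) (hg : ∀ e, E e B → app g e = e) :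
    Iso g B B := by
  refine ⟨fun e he => by rw [hg e he]; exact he, fun d hd => ⟨d, hd, hg d hd⟩,
    fun e e' he he' h => by rwa [hg e he, hg e' he'] at h,
    fun e he hn => by rw [hg e he]; exact hn,
    fun e he => by rw [hg e he, ig_id hg (hB e he).1], fun D r q x i t he => ⟨t, ?_⟩⟩
  obtain ⟨_, _, hDB, hSD, hr, _, hq, hx, _⟩ := hA.sycd hB he
  have hgD : ∀ e, E e D → app g e = e := fun e h => hg e (hDB e h)
  rw [hg _ he, ig_id hg hDB, hg r (hDB r hr), act_id hgD (hA.sy0 hSD) hq,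
    actn_id hgD (hA.sy0 hSD) hx]

end

/-- correct extensions can be moved -/
theorem move {M : Type} [SetStr M] [ZFC M] (hA : AtFacts M) (hI : ISFStmt) (hR : RNMStmt)
    (hO : OKIStmt) {H : M} (hH : Hb H) {r : M}
    (ih : ∀ r', E r' (bs r) → IsR r' → InvAt H r') {g B1 B2 J C : M} (hS1 : Sy B1) (hS2 : Sy B2)
    (hiso : Iso g B1 B2) (hr : E r B1)
    (hid : ∀ e, E e (bs r) → app g e = e) (hJ : ExsO H (fun r' => OO H r') r B1 J)
    (hBC : Sub B2 C) (hcC : Cb C) (hCH : Sub C H) :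
    ∃ g' J2, Iso g' J J2 ∧ (∀ e, E e B1 → app g' e = app g e) ∧
      ExsO H (fun r' => OO H r') r B2 J2 ∧ ∀ e, E e J2 → E e C → E e B2 := by
  obtain ⟨hSJ, hcJ, hJH, hBJ, hgood⟩ := hJ
  obtain ⟨g', J2, hiso', hS', hc', hH', hB', hag, hdis, hlab⟩ :=
    hR M H g B1 B2 J C hH hS1 hS2 hSJ hiso hBJ hcJ hJH hBC hcC hCH
  have hbr : Sub (bs r) B1 := (hS1 r hr).1
  have hid' : ∀ e, E e (bs r) → app g' e = e := fun e he => by
    rw [hag e (hbr e he), hid e he]
  refine ⟨g', J2, hiso', hag, ⟨hS', hc', hH', hB', ?_⟩, hdis⟩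
  intro B' r' q' x' i' t' hd hnd hr' hRr'
  obtain ⟨c, hc, hcd⟩ := hiso'.2.1 _ hd
  have hcB : ¬ E c B1 := fun h => hnd (by rw [← hcd, hag c h]; exact hiso.1 c h)
  rcases (hA.sye hSJ hc).2.1 with hn | ⟨B0, r0, q0, x0, i0, t0, rfl⟩
  · have := hiso'.2.2.2.1 c hc hn
    rw [hcd] at this
    exact absurd ⟨_, _, _, _, _, _, rfl⟩ (hA.nc this)
  obtain ⟨t1, ht1⟩ := hiso'.2.2.2.2.2 _ _ _ _ _ _ hc
  rw [hcd] at ht1
  have hd' := hd
  rw [ht1] at hd'
  rw [hA.cd] at ht1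
  obtain ⟨rfl, rr, rfl, rfl, rfl, rfl⟩ := ht1
  obtain ⟨_, _, hB0J, hSB0, hr0, hnr0, _⟩ := hA.sycd hSJ hc
  have hr0B : E r0 B1 := by
    by_contra h
    have := hlab r0 (hB0J r0 hr0) h hnr0
    rw [← rr] at this
    exact hA.lr this hRr'
  have hr0r : r0 = r' := by
    refine hiso.2.2.1 r0 r' hr0B (hbr r' hr') ?_
    rw [← hag r0 hr0B, ← rr, hid r' hr']
  subst hr0r
  have hgc := hgood _ _ _ _ _ _ hc hcB hr' hRr'
  have hf : IsoFacts g' J J2 := hI M g' J J2 hSJ hS' hiso'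
  obtain ⟨hsub1, hsub2, hsub3⟩ := hf.sub hSB0 hB0J
  have hbb : Sub (bs r0) (bs r) := (hA.sye hS1 hr).2.2.2.1 r0 hr'
  rw [← rr] at hd'
  exact hO M H r0 hH hRr' (ih r0 hr' hRr') g' B0 (ig g' B0) q0 x0 i' t0 t' hSB0 hsub2
    (fun z hz => hJH z (hB0J z hz)) (fun z hz => hH' z (hsub3 z hz)) hsub1 rr.symm
    (fun e he => hid' e (hbb e he)) (lvc hA hSJ hc) (lvc hA hS' hd') (hH' _ hd') hgc

end InvX

open InvX in
theorem sep_inv (hAt : ATMStmt) (hPs : PSFStmt) (hG : ACGStmt) (hI : ISFStmt) (hR : RNMStmt)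
    (hO : OKIStmt) : INVStmt := by
  intro M _ _ hF H hH
  have hA : AtFacts M := hAt M
  have hP : PsFacts M := hPs M
  have hCl : Cl (fun r : M => IsR r → InvAt H r) := by
    have h1 : Df (fun v : Fin 1 → M => InvAt H (v 0)) :=
      InvAt_df.comp2 (R := fun a b => InvAt a b) (inferInstance : DfT (fun v : Fin 1 → M => H))
        (inferInstance : DfT (fun v : Fin 1 → M => v 0))
    infer_instance
  refine tc_induction hCl ?_
  intro r ih hRr g B1 B2 p x hS1 hS2 hc1 hc2 hH1 hH2 hiso hr1 hr2 hgr hid hp hx hcan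
  obtain ⟨J, p', hex, hp', hpp', B, T0, T1, t, rfl, hsf⟩ := hcan
  have ih' : ∀ r', E r' (bs (rul B T0 T1 t)) → IsR r' → InvAt H r' := fun r' hr' => by
    rw [bs_rul] at hr'
    exact ih r' (Trans_tc _ _ (tc_rr tc_l) r' hr')
  obtain ⟨g', J2, hiso', hag, hex', _⟩ := move hA hI hR hO hH ih' hS1 hS2 hiso hr1 hid hex
    (Sub.refl B2) hc2 hH2
  obtain ⟨hSJ, hcJ, hJH, hBJ, _⟩ := hex
  have hf : IsoFacts g' J J2 := hI M g' J J2 hSJ hex'.1 hiso'
  obtain ⟨k1, k2, _⟩ := hG M g' g B1 hag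
  have h0 := hA.sy0 hS1
  obtain ⟨_, _, hBB, hSB, _, hT1⟩ := hA.syrl hS1 hr1
  rw [bs_rul] at hid
  refine ⟨J2, act g' p', hex', hf.act_in hp', ?_, B, T0, T1, t, rfl, ?_⟩
  · rw [← k1 p hp h0]
    exact act_mono hpp'
  · have h1 := hF g' J J2 p' T1 x hSJ hex'.1 hiso' (nm_mono hP (fun z hz => hBJ z (hBB z hz)) hT1)
      (nm_mono hP hBJ hx) hp' hsf
    rw [k2 _ x hx h0, actn_id (B := B) (fun e he => by
      rw [hag e (hBB e he), hid e he]) (hA.sy0 hSB) hT1] at h1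
    exact h1

open InvX in
theorem sep_exr (hAt : ATMStmt) (hI : ISFStmt) (hR : RNMStmt) (hO : OKIStmt) (hN : INVStmt) :
    EXRStmt := by
  intro M _ _ hF H hH r B J C hRr hr hSB hcB hBH hex hBC hcC hCH
  have hA : AtFacts M := hAt M
  have hg : ∀ e, E e B → app (gr B (fun x => x)) e = e := fun e he =>
    app_gr (f := fun x => x) inferInstance he
  have hbr : Sub (bs r) B := (hSB r hr).1
  obtain ⟨g', J2, hiso', hag, hex', hdis⟩ := move hA hI hR hO hH
    (fun r' _ hr' => hN M hF H hH r' hr') hSB hSB (iso_id hA hSB hg) hr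
    (fun e he => hg e (hbr e he)) hex hBC hcC hCH
  exact ⟨g', J2, hiso', fun e he => by rw [hag e he, hg e he], hex', hdis⟩

end SW.SEP
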