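import Pool.Agent.H63.SEP.Stmts

/-!
Project SEP, module RNM: renaming the part of a system outside a subsystem.
-/

set_option linter.unusedVariables false
set_option synthInstance.maxSize 100000

namespace SW.SEP

open SW

section
variable {M : Type} [SetStr M] [ZF M]

namespace Rnm

theorem tc_sub {x y : M} (h : E y (tc x)) : Sub (tc y) (tc x) :=
  tc_min (Trans_tc x y h) (Trans_tc x)

theorem tc_tr {a b c : M} (h : E a (tc b)) (h' : E b (tc c)) : E a (tc c) := tc_sub h' a h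

theorem mem_tc_cases {x z : M} (h : E z (tc x)) : E z x ∨ ∃ y, E y x ∧ E z (tc y) := by
  have h1 : Sub (tc x) (sep (tc x) (fun z => E z x ∨ ∃ y, E y x ∧ E z (tc y))) := by
    refine tc_min (fun z hz => mem_sep.2 ⟨sub_tc x z hz, Or.inl hz⟩) ?_
    intro z hz w hw
    rw [mem_sep] at hz ⊢
    refine ⟨Trans_tc x z hz.1 w hw, Or.inr ?_⟩
    rcases hz.2 with h | ⟨y, hy, h⟩
    · exact ⟨z, h, sub_tc z w hw⟩
    · exact ⟨y, hy, Trans_tc y z h w hw⟩
  exact (mem_sep.1 (h1 z h)).2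

theorem not_mem_tc (x : M) : ¬ E x (tc x) := by
  refine mem_induction (C := fun x => ¬ E x (tc x)) inferInstance ?_ x
  intro x ih hx
  rcases mem_tc_cases hx with h | ⟨y, hy, h⟩
  · exact not_mem_self _ h
  · exact ih y hy (Trans_tc y x h y hy)

theorem tc_induction {C : M → Prop} (hC : Cl C) (h : ∀ x, (∀ y, E y (tc x) → C y) → C x) (x : M) :
    C x := by
  have h1 : ∀ x, C x ∧ ∀ y, E y (tc x) → C y := by
    refine mem_induction (C := fun x => C x ∧ ∀ y, E y (tc x) → C y) inferInstance ?_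
    intro x ih
    have h2 : ∀ y, E y (tc x) → C y := by
      intro y hy
      rcases mem_tc_cases hy with h | ⟨z, hz, h⟩
      · exact (ih y h).1
      · exact (ih z hz).2 y h
    exact ⟨h x h2, h2⟩
  exact (h1 x).1

theorem tc_l {a b : M} : E a (tc (opair a b)) := by
  have h1 : E (sing a) (tc (opair a b)) := sub_tc _ _ (by simp [opair])
  exact Trans_tc _ _ h1 _ (by simp)

theorem tc_r {a b : M} : E b (tc (opair a b)) := by
  have h1 : E (upair a b) (tc (opair a b)) := sub_tc _ _ (by simp [opair])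
  exact Trans_tc _ _ h1 _ (by simp)

theorem tc_rr {a b c : M} (h : E c (tc b)) : E c (tc (opair a b)) := tc_tr h tc_r

/-- the value of the renaming at `x`, where `h` is the set of earlier values -/
noncomputable def FF (B1 g C x h : M) : M := the (fun y => (E x B1 ∧ y = app g x) ∨
  (¬ E x B1 ∧ Nc x ∧ y = lbl (ig h (bs x)) (opair C x)) ∨
  (¬ E x B1 ∧ ∃ B r q x' i t, x = cod B r q x' i t ∧
    y = cod (ig h B) (app h r) (act h q) (actn h x') i (opair C x)))

theorem FF_df (B1 g C : M) : Fn2 (fun x h : M => FF B1 g C x h) := by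
  unfold FF; infer_instance

end Rnm

end

namespace Rnm

section
variable {M : Type} [SetStr M] [ZF M]

theorem FF_in {B1 g C x h : M} (hx : E x B1) : FF B1 g C x h = app g x := by
  unfold FF
  refine the_eq (Or.inl ⟨hx, rfl⟩) ?_
  rintro z (h | h | h)
  · exact h.2
  · exact absurd hx h.1
  · exact absurd hx h.1

theorem FF_nc (hA : AtFacts M) {B1 g C x h : M} (hx : ¬ E x B1) (hn : Nc x) :
    FF B1 g C x h = lbl (ig h (bs x)) (opair C x) := by
  unfold FF
  refine the_eq (Or.inr (Or.inl ⟨hx, hn, rfl⟩)) ?_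
  rintro z (h | h | h)
  · exact absurd h.1 hx
  · exact h.2.2
  · obtain ⟨_, B, r, q, x', i, t, rfl, _⟩ := h
    exact absurd ⟨B, r, q, x', i, t, rfl⟩ (hA.nc hn)

theorem FF_cd (hA : AtFacts M) {B1 g C h B r q x i t : M} (hx : ¬ E (cod B r q x i t) B1) :
    FF B1 g C (cod B r q x i t) h =
      cod (ig h B) (app h r) (act h q) (actn h x) i (opair C (cod B r q x i t)) := by
  unfold FF
  refine the_eq (Or.inr (Or.inr ⟨hx, B, r, q, x, i, t, rfl, rfl⟩)) ?_
  rintro z (h | h | h)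
  · exact absurd h.1 hx
  · exact absurd ⟨B, r, q, x, i, t, rfl⟩ (hA.nc h.2.1)
  · obtain ⟨_, B', r', q', x', i', t', he, rfl⟩ := h
    rw [hA.cd] at he
    obtain ⟨rfl, rfl, rfl, rfl, rfl, rfl⟩ := he
    rfl

theorem bs_tc {J e : M} (hA : AtFacts M) (hJ : Sy J) (he : E e J) : E (bs e) (tc e) := by
  rcases (hA.sye hJ he).2.1 with (⟨B, t, rfl⟩ | ⟨B, T0, T1, t, rfl⟩) | ⟨B, r, q, x, i, t, rfl⟩
  · rw [bs_lbl]; exact tc_rr tc_l
  · rw [bs_rul]; exact tc_rr tc_l
  · rw [bs_cod]; exact tc_rr tc_l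

theorem tag_lbl {B C e : M} : E C (tc (lbl B (opair C e))) := tc_rr (tc_rr tc_l)

theorem tag_cod {B r q x i C e : M} : E C (tc (cod B r q x i (opair C e))) :=
  tc_rr (tc_rr (tc_rr (tc_rr (tc_rr (tc_rr tc_l)))))

theorem not_mem_tag {C y : M} (h : E C (tc y)) : ¬ E y C := fun hy =>
  not_mem_tc C (tc_tr h (sub_tc C y hy))

/-- the renaming, by recursion -/
theorem core (hT : TRECStmt) (hG : ACGStmt) (hA : AtFacts M) {B1 g C J1 : M} (hJ : Sy J1)
    (hs : Sub B1 J1) : ∃ g', (∀ e, E e B1 → app g' e = app g e) ∧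
      (∀ e, E e J1 → ¬ E e B1 → Nc e → app g' e = lbl (ig g' (bs e)) (opair C e)) ∧
      ∀ B r q x i t, E (cod B r q x i t) J1 → ¬ E (cod B r q x i t) B1 →
        app g' (cod B r q x i t) = cod (ig g' B) (app g' r) (act g' q) (actn g' x) i
          (opair C (cod B r q x i t)) := by
  have hF : Fn2 (fun x h : M => FF B1 g C x h) := FF_df B1 g C
  have hGd : Fn1 (fun x : M => trec (fun x h : M => FF B1 g C x h) x) :=
    trec_df (F := fun x h : M => FF B1 g C x h)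
  have hval : ∀ e, E e J1 → app (gr J1 (trec (fun x h : M => FF B1 g C x h))) e =
      FF B1 g C e (gr (tc e) (trec (fun x h : M => FF B1 g C x h))) := fun e he => by
    rw [app_gr hGd he]
    exact hT M (fun x h : M => FF B1 g C x h) hF e
  have hag : ∀ e, E e J1 → ∀ d, E d (bs e) →
      app (gr (tc e) (trec (fun x h : M => FF B1 g C x h))) d =
        app (gr J1 (trec (fun x h : M => FF B1 g C x h))) d := fun e he d hd => by
    rw [app_gr hGd (Trans_tc e _ (bs_tc hA hJ he) d hd),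
      app_gr hGd ((hA.sye hJ he).2.2.2.2.1 d hd)]
  have h0 : ∀ e, E e J1 → ¬ E emp (bs e) := fun e he => hA.sy0 (hA.sye hJ he).2.2.2.2.2
  refine ⟨gr J1 (trec (fun x h : M => FF B1 g C x h)), fun e he => ?_, fun e he he' hn => ?_,
    fun B r q x i t he he' => ?_⟩
  · rw [hval e (hs e he), FF_in he]
  · rw [hval e he, FF_nc hA he' hn, (hG M _ _ (bs e) (hag e he)).2.2]
  · obtain ⟨_, _, _, _, hr, _, hq, hx, _⟩ := hA.sycd hJ he
    have hag' := hag _ he
    have h0' := h0 _ he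
    rw [bs_cod] at hag' h0'
    obtain ⟨k1, k2, k3⟩ := hG M _ _ B hag'
    rw [hval _ he, FF_cd hA he', k3, hag' r hr, k1 q hq h0', k2 _ x hx h0']

end

end Rnm

namespace Rnm

section
variable {M : Type} [SetStr M] [ZF M]

theorem mem_ig {g B y : M} : E y (ig g B) ↔ ∃ x, E x B ∧ y = app g x := by
  unfold ig; rw [mem_img]

theorem mem_act {g p y : M} : E y (act g p) ↔ ∃ a, E a p ∧ y = opair (hx g (p1 a)) (p2 a) := by
  unfold act; rw [mem_img]

theorem mem_actn {g τ y : M} : E y (actn g τ) ↔ ∃ a, E a τ ∧ y = opair (act g (p1 a)) (p2 a) := by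
  unfold actn; rw [mem_img]

theorem act_mono {g p q : M} (h : Sub p q) : Sub (act g p) (act g q) := fun y hy => by
  obtain ⟨a, ha, rfl⟩ := mem_act.1 hy
  exact mem_act.2 ⟨a, h a ha, rfl⟩

theorem ig_mono {g p q : M} (h : Sub p q) : Sub (ig g p) (ig g q) := fun y hy => by
  obtain ⟨a, ha, rfl⟩ := mem_ig.1 hy
  exact mem_ig.2 ⟨a, h a ha, rfl⟩

/-- totality and single valuedness of names are preserved -/
theorem tot_act {g B B' q x : M} (hf : IsoFacts g B B') (hq : E q (PS B))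
    (h : Tot B q x) : Tot B' (act g q) (actn g x) := by
  intro r hr hqr n hn
  obtain ⟨r0, hr0, rfl⟩ := hf.act_sur hr
  obtain ⟨r', q', a, h1, h2, h3, h4⟩ := h r0 hr0 ((hf.act_sub hq hr0).1 hqr) n hn
  refine ⟨act g r', act g q', a, hf.act_in h1, act_mono h2, act_mono h3,
    mem_actn.2 ⟨_, h4, ?_⟩⟩
  rw [p1_opair, p2_opair]

theorem fun_act {g B B' q x X : M} (hf : IsoFacts g B B') (hq : E q (PS B)) (hx : Nm B X x)
    (h : Fun B q x) : Fun B' (act g q) (actn g x) := by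
  intro r hr hqr q' q'' n a a' h1 h2 h3 h4
  obtain ⟨r0, hr0, rfl⟩ := hf.act_sur hr
  obtain ⟨t, ht, e⟩ := mem_actn.1 h3
  obtain ⟨t', ht', e'⟩ := mem_actn.1 h4
  obtain ⟨q1, b, hq1, _, rfl⟩ := hx.2 t ht
  obtain ⟨q2, b', hq2, _, rfl⟩ := hx.2 t' ht'
  rw [p1_opair, p2_opair, opair_inj] at e e'
  obtain ⟨rfl, rfl⟩ := e
  obtain ⟨rfl, rfl⟩ := e'
  exact h r0 hr0 ((hf.act_sub hq hr0).1 hqr) q1 q2 n a a' ((hf.act_sub hq1 hr0).1 h1)
    ((hf.act_sub hq2 hr0).1 h2) ht ht'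

end

end Rnm

open Rnm in
theorem sep_rnm (hT : TRECStmt) (hAt : ATMStmt) (hG : ACGStmt) (hI : ISFStmt) (hB : HBFStmt)
    (hC : CBAStmt) : RNMStmt := by
  intro M _ _ H g B1 B2 J1 C hH hS1 hS2 hJ hg hs hcJ hJH hB2C hcC hCH
  have hA : AtFacts M := hAt M
  have hc : CbA M := hC M
  have hb : HbFacts H := hB M H hH
  obtain ⟨g', e1, e2, e3⟩ := core hT hG hA (B1 := B1) (g := g) (C := C) hJ hs
  have kind : ∀ e, E e J1 → Nc e ∨ IsC e := fun e he => (hA.sye hJ he).2.1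
  have hCmem : E C H := hH.2 C hCH hcC
  have hbs : ∀ e, E e J1 → bs (app g' e) = ig g' (bs e) := by
    intro e he
    by_cases he' : E e B1
    · rw [e1 e he', hg.2.2.2.2.1 e he',
        ← (hG M g' g (bs e) (fun d hd => e1 d ((hS1 e he').1 d hd))).2.2]
    · rcases kind e he with hn | ⟨B, r, q, x, i, t, rfl⟩
      · rw [e2 e he he' hn, bs_lbl]
      · rw [e3 _ _ _ _ _ _ he he', bs_cod, bs_cod]
  have htag : ∀ e, E e J1 → ¬ E e B1 → ¬ E (app g' e) C := by
    intro e he he'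
    rcases kind e he with hn | ⟨B, r, q, x, i, t, rfl⟩
    · rw [e2 e he he' hn]
      exact not_mem_tag tag_lbl
    · rw [e3 _ _ _ _ _ _ he he']
      exact not_mem_tag tag_cod
  have hinB : ∀ e, E e B1 → E (app g' e) B2 := fun e he => by
    rw [e1 e he]; exact hg.1 e he
  have hinj : ∀ e e', E e J1 → E e' J1 → app g' e = app g' e' → e = e' := by
    intro e e' he he' h
    by_cases h1 : E e B1
    · by_cases h2 : E e' B1
      · rw [e1 e h1, e1 e' h2] at h
        exact hg.2.2.1 e e' h1 h2 h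
      · exact absurd (hB2C _ (h ▸ hinB e h1)) (htag e' he' h2)
    · by_cases h2 : E e' B1
      · exact absurd (hB2C _ (h.symm ▸ hinB e' h2)) (htag e he h1)
      · rcases kind e he with hn | ⟨B, r, q, x, i, t, rfl⟩
        · rcases kind e' he' with hn' | ⟨B', r', q', x', i', t', rfl⟩
          · rw [e2 e he h1 hn, e2 e' he' h2 hn', hA.lb] at h
            exact (opair_inj.1 h.2).2
          · rw [e2 e he h1 hn, e3 _ _ _ _ _ _ he' h2] at h
            exact absurd ⟨_, _, _, _, _, _, h⟩ (hA.nc (Or.inl ⟨_, _, rfl⟩))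
        · rcases kind e' he' with hn' | ⟨B', r', q', x', i', t', rfl⟩
          · rw [e3 _ _ _ _ _ _ he h1, e2 e' he' h2 hn'] at h
            exact absurd ⟨_, _, _, _, _, _, h.symm⟩ (hA.nc (Or.inl ⟨_, _, rfl⟩))
          · rw [e3 _ _ _ _ _ _ he h1, e3 _ _ _ _ _ _ he' h2, hA.cd] at h
            exact (opair_inj.1 h.2.2.2.2.2).2
  have hNc : ∀ e, E e J1 → Nc e → Nc (app g' e) := by
    intro e he hn
    by_cases he' : E e B1
    · rw [e1 e he']
      exact hg.2.2.2.1 e he' hn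
    · rw [e2 e he he' hn]
      exact Or.inl ⟨_, _, rfl⟩
  have hcd : ∀ B r q x i t, E (cod B r q x i t) J1 → ∃ t', app g' (cod B r q x i t) =
      cod (ig g' B) (app g' r) (act g' q) (actn g' x) i t' := by
    intro B r q x i t he
    by_cases he' : E (cod B r q x i t) B1
    · obtain ⟨t', ht'⟩ := hg.2.2.2.2.2 B r q x i t he'
      obtain ⟨_, _, hBB, hSB, hr, _, hq, hx, _⟩ := hA.sycd hS1 he'
      obtain ⟨k1, k2, k3⟩ := hG M g' g B (fun d hd => e1 d (hBB d hd))
      refine ⟨t', ?_⟩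
      rw [e1 _ he', ht', k3, e1 r (hBB r hr), k1 q hq (hA.sy0 hSB), k2 _ x hx (hA.sy0 hSB)]
    · exact ⟨_, e3 _ _ _ _ _ _ he he'⟩
  have hval : ∀ e, E e J1 → E (app g' e) H ∧
      (LVL (app g' e) ∨ LVR (app g' e) ∨ LVC (app g' e)) := by
    refine tc_induction (C := fun e => E e J1 → E (app g' e) H ∧
      (LVL (app g' e) ∨ LVR (app g' e) ∨ LVC (app g' e))) inferInstance ?_
    intro e ih he
    by_cases he' : E e B1
    · exact ⟨hCH _ (hB2C _ (hinB e he')), (hS2 _ (hinB e he')).2⟩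
    obtain ⟨_, _, hcb, hclb, hbJ, hSb⟩ := hA.sye hJ he
    have hbtc : ∀ d, E d (bs e) → E d (tc e) := fun d hd => Trans_tc e _ (bs_tc hA hJ he) d hd
    have hcb' : Cb (ig g' (bs e)) := hc.img (fun d => app g' d) inferInstance hcb
    have hsub' : Sub (ig g' (bs e)) H := fun y hy => by
      obtain ⟨d, hd, rfl⟩ := mem_ig.1 hy
      exact (ih d (hbtc d hd) (hbJ d hd)).1
    have hcl' : ClB (ig g' (bs e)) := fun y hy => by
      obtain ⟨d, hd, rfl⟩ := mem_ig.1 hy
      rw [hbs d (hbJ d hd)]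
      exact ig_mono (hclb d hd)
    have hmem' : E (ig g' (bs e)) H := hH.2 _ hsub' hcb'
    have htagH : E (opair C e) H := hb.opair hCmem (hJH e he)
    rcases kind e he with hn | ⟨B, r, q, x, i, t, rfl⟩
    · rw [e2 e he he' hn]
      exact ⟨hb.lbl hmem' htagH, Or.inl ⟨_, _, rfl, hcb', hcl'⟩⟩
    · rw [e3 _ _ _ _ _ _ he he']
      rw [bs_cod] at hcb hclb hbJ hSb hbtc hcb' hsub' hcl' hmem'
      obtain ⟨_, _, _, _, hr, hnr, hq, hx, htot, hfun, hi⟩ := hA.sycd hJ he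
      have hS' : Sy (ig g' B) := fun y hy => by
        obtain ⟨d, hd, rfl⟩ := mem_ig.1 hy
        exact ⟨hcl' _ hy, (ih d (hbtc d hd) (hbJ d hd)).2⟩
      have hiso : Iso g' B (ig g' B) := by
        refine ⟨fun d hd => mem_ig.2 ⟨d, hd, rfl⟩, fun y hy => ?_, fun d d' hd hd' h =>
          hinj d d' (hbJ d hd) (hbJ d' hd') h, fun d hd => hNc d (hbJ d hd),
          fun d hd => hbs d (hbJ d hd), fun B0 r0 q0 x0 i0 t0 h0 => hcd _ _ _ _ _ _ (hbJ _ h0)⟩
        obtain ⟨d, hd, rfl⟩ := mem_ig.1 hy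
        exact ⟨d, hd, rfl⟩
      have hf : IsoFacts g' B (ig g' B) := hI M g' B (ig g' B) hSb hS' hiso
      have hq' : E (act g' q) (PS (ig g' B)) := hf.act_in hq
      have hx' : Nm (ig g' B) (prod om om) (actn g' x) := hf.nm hx
      have hXH : Sub (prod om om) H := fun z hz => by
        obtain ⟨a, b, ha, hb', rfl⟩ := mem_prod'.1 hz
        exact hb.opair (hb.om.2 a ha) (hb.om.2 b hb')
      have hiH : E i H := by
        rcases hA.mem2.1 hi with rfl | rfl
        · exact hb.emp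
        · exact hb.one
      refine ⟨hb.cod hmem' (ih r (hbtc r hr) (hbJ r hr)).1 (hb.PS hsub' _ hq')
        (hb.Nm hsub' hXH hx') hiH htagH, Or.inr (Or.inr ⟨_, _, _, _, _, _, rfl, hcb', hcl',
          mem_ig.2 ⟨r, hr, rfl⟩, hNc r (hbJ r hr) hnr, hq', hx', tot_act hf hq htot,
          fun_act hf hq hx hfun, hi⟩)⟩
  refine ⟨g', ig g' J1, ⟨fun e he => mem_ig.2 ⟨e, he, rfl⟩, fun y hy => ?_, hinj, hNc, hbs, hcd⟩,
    fun y hy => ?_, hc.img (fun d => app g' d) inferInstance hcJ, fun y hy => ?_, fun y hy => ?_,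
    e1, fun y hy hyC => ?_, fun e he he' hn => ?_⟩
  · obtain ⟨d, hd, rfl⟩ := mem_ig.1 hy
    exact ⟨d, hd, rfl⟩
  · obtain ⟨d, hd, rfl⟩ := mem_ig.1 hy
    rw [hbs d hd]
    exact ⟨ig_mono (hJ d hd).1, (hval d hd).2⟩
  · obtain ⟨d, hd, rfl⟩ := mem_ig.1 hy
    exact (hval d hd).1
  · obtain ⟨d, hd, rfl⟩ := hg.2.1 y hy
    exact mem_ig.2 ⟨d, hs d hd, (e1 d hd).symm⟩
  · obtain ⟨d, hd, rfl⟩ := mem_ig.1 hy
    by_cases hd' : E d B1
    · exact hinB d hd'
    · exact absurd hyC (htag d hd hd')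
  · rw [e2 e he he' hn]
    exact ⟨_, _, rfl⟩

end SW.SEP
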